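import Mathlib

set_option autoImplicit false
set_option linter.style.haveILetI false

namespace Pool.Agent.H.MP_102156_al

open Subgroup
open scoped commutatorElement

variable {G : Type} [Group G]

/-- Dicman's lemma. -/
theorem ncl_finite (hT : IsMulTorsion G) (hFC : ∀ g : G, {h : G | IsConj g h}.Finite)
    (S : Set G) (hS : S.Finite) : (normalClosure S : Set G).Finite := by
  classical
  have hC : (Group.conjugatesOfSet S).Finite := by
    unfold Group.conjugatesOfSet
    exact hS.biUnion (fun a _ => hFC a)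
  set T := Group.conjugatesOfSet S with hTdef
  let H : Subgroup G := normalClosure S
  have hH : H = closure T := rfl
  haveI : Finite T := hC.to_subtype
  haveI hfg : Group.FG H := by
    rw [Group.fg_iff_subgroup_fg, hH]
    exact ⟨hC.toFinset, by simp⟩
  have hcen : ∀ t : G, (centralizer ({t} : Set G)).FiniteIndex := by
    intro t
    have h1 : Finite (G ⧸ centralizer ({t} : Set G)) := by
      haveI : Finite {h : G | IsConj t h} := (hFC t).to_subtype
      let f : G ⧸ centralizer ({t} : Set G) → {h : G | IsConj t h} :=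
        fun q => ⟨q.out * t * q.out⁻¹, isConj_iff.mpr ⟨q.out, rfl⟩⟩
      refine Finite.of_injective f ?_
      intro a b hab
      have hab' : a.out * t * a.out⁻¹ = b.out * t * b.out⁻¹ := congrArg Subtype.val hab
      rw [← a.out_eq', ← b.out_eq', QuotientGroup.eq, mem_centralizer_singleton_iff]
      calc a.out⁻¹ * b.out * t = a.out⁻¹ * (b.out * t * b.out⁻¹) * b.out := by group
        _ = a.out⁻¹ * (a.out * t * a.out⁻¹) * b.out := by rw [hab']
        _ = t * (a.out⁻¹ * b.out) := by group
    exact finiteIndex_of_finite_quotient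
  let C : Subgroup G := ⨅ t : T, centralizer ({(t : G)} : Set G)
  haveI hCfi : C.FiniteIndex := finiteIndex_iInf (fun t => hcen t)
  let Z : Subgroup H := C.subgroupOf H
  haveI : Z.FiniteIndex := inferInstance
  have hZ : Z ≤ center H := by
    intro z hz
    rw [mem_center_iff]
    intro g
    have hz' : (z : G) ∈ C := hz
    have : (z : G) ∈ centralizer ((closure T : Subgroup G) : Set G) := by
      rw [centralizer_closure]
      intro t ht
      have := (mem_iInf.mp hz') ⟨t, ht⟩
      exact (mem_centralizer_singleton_iff.mp this).symm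
    exact Subtype.ext (this g g.2)
  haveI : (center H).FiniteIndex := finiteIndex_of_le hZ
  haveI : Finite (center H) := by
    letI : CommGroup (center H) := { (inferInstance : Group (center H)) with
      mul_comm := fun a b => Subtype.ext ((mem_center_iff.mp b.2) a) }
    exact CommGroup.finite_of_fg_isMulTorsion (center H) ((hT.subgroup H).subgroup _)
  haveI : Finite (H ⧸ center H) := finite_quotient_of_finiteIndex
  have : Finite H := Finite.of_equiv _ (groupEquivQuotientProdSubgroup (s := center H)).symm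
  exact Set.toFinite (H : Set G)

/-- closing a point under a countably valued operation on finite sets -/
theorem exists_countable_closed {α : Type} (F : Set α → Set α)
    (hF : ∀ s, s.Finite → (F s).Countable) (c : α) :
    ∃ H : Set α, H.Countable ∧ c ∈ H ∧ ∀ s, s.Finite → s ⊆ H → F s ⊆ H := by
  let X : ℕ → Set α := fun n => Nat.rec {c}
    (fun _ Y => Y ∪ ⋃ s ∈ {t : Set α | t.Finite ∧ t ⊆ Y}, F s) n
  have hXs : ∀ n, X (n + 1) = X n ∪ ⋃ s ∈ {t : Set α | t.Finite ∧ t ⊆ X n}, F s := fun n => rfl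
  have hXc : ∀ n, (X n).Countable := by
    intro n
    induction n with
    | zero => exact Set.countable_singleton c
    | succ n ih =>
      rw [hXs]
      exact ih.union ((Set.countable_ofPred_finite_subset ih).biUnion (fun s hs => hF s hs.1))
  have hmono : Monotone X := monotone_nat_of_le_succ (fun n => by
    rw [hXs]; exact Set.subset_union_left)
  refine ⟨⋃ n, X n, Set.countable_iUnion hXc, Set.mem_iUnion.mpr ⟨0, rfl⟩, ?_⟩
  intro s hs hsub
  obtain ⟨n, hn⟩ : ∃ n, s ⊆ X n := by
    clear hF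
    induction s, hs using Set.Finite.induction_on with
    | empty => exact ⟨0, Set.empty_subset _⟩
    | @insert a s _ _ ih =>
      obtain ⟨n, hn⟩ := ih ((Set.subset_insert a s).trans hsub)
      obtain ⟨m, hm⟩ := Set.mem_iUnion.mp (hsub (Set.mem_insert a s))
      exact ⟨max n m, Set.insert_subset (hmono (le_max_right n m) hm)
        (hn.trans (hmono (le_max_left n m)))⟩
  intro x hx
  refine Set.mem_iUnion.mpr ⟨n + 1, ?_⟩
  rw [hXs]
  exact Or.inr (Set.mem_biUnion (show s ∈ {t : Set α | t.Finite ∧ t ⊆ X n} from ⟨hs, hn⟩) hx)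

/-- normal finite index subgroups above `D` -/
structure NF (D : Subgroup G) where
  N : Subgroup G
  normal : N.Normal
  fi : N.FiniteIndex
  le : D ≤ N

instance NF.instNormal {D : Subgroup G} (A : NF D) : A.N.Normal := A.normal
instance NF.instFI {D : Subgroup G} (A : NF D) : A.N.FiniteIndex := A.fi

/-- countably many types of finite quotients over a finite set -/
theorem exists_types (D : Subgroup G) (s : Set G) (hs : s.Finite) :
    ∃ T : Set G, T.Countable ∧ ∀ A : NF D, ∃ π : G →* G ⧸ A.N,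
      (∀ d ∈ D, π d = 1) ∧ (∀ g ∈ s, π g = (g : G ⧸ A.N)) ∧ ∀ y : G, ∃ t ∈ T, π y = π t := by
  classical
  haveI : Finite s := hs.to_subtype
  let Code := Σ n : ℕ, (Fin n → Fin n → Fin n) × (s → Fin n)
  let R : Code → NF D → Prop := fun c A => ∃ β : (G ⧸ A.N) ≃ Fin c.1,
    (∀ a b, β (a * b) = c.2.1 (β a) (β b)) ∧ ∀ g : s, β ((g : G) : G ⧸ A.N) = c.2.2 g
  let T0 : Code → Set G := fun c =>
    if h : ∃ A, R c A then Set.range (fun q : G ⧸ (Classical.choose h).N => q.out) else ∅
  refine ⟨⋃ c, T0 c, Set.countable_iUnion (fun c => ?_), ?_⟩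
  · by_cases h : ∃ A, R c A
    · simp only [T0, dif_pos h]
      haveI : Finite (G ⧸ (Classical.choose h).N) := finite_quotient_of_finiteIndex
      exact (Set.finite_range _).countable
    · simp only [T0, dif_neg h]; exact Set.countable_empty
  · intro A
    haveI : Finite (G ⧸ A.N) := finite_quotient_of_finiteIndex
    let β : (G ⧸ A.N) ≃ Fin (Nat.card (G ⧸ A.N)) := Finite.equivFin _
    let c : Code := ⟨Nat.card (G ⧸ A.N), fun i j => β (β.symm i * β.symm j),
      fun g => β ((g : G) : G ⧸ A.N)⟩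
    have hc : R c A := ⟨β, fun a b => by simp [c], fun g => rfl⟩
    have h : ∃ A, R c A := ⟨A, hc⟩
    obtain ⟨β', h1, h2⟩ := Classical.choose_spec h
    let θ : (G ⧸ (Classical.choose h).N) →* G ⧸ A.N := MonoidHom.mk' (fun q => β.symm (β' q)) (by
      intro a b
      rw [h1]
      simp [c])
    refine ⟨θ.comp (QuotientGroup.mk' _), ?_, ?_, ?_⟩
    · intro d hd
      have : (QuotientGroup.mk' (Classical.choose h).N) d = 1 :=
        (QuotientGroup.eq_one_iff d).mpr ((Classical.choose h).le hd)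
      rw [MonoidHom.comp_apply, this, map_one]
    · intro g hg
      have := h2 ⟨g, hg⟩
      show β.symm (β' (g : G ⧸ _)) = _
      rw [this]
      simp [c]
    · intro y
      refine ⟨((y : G ⧸ (Classical.choose h).N)).out, Set.mem_iUnion.mpr ⟨c, ?_⟩, ?_⟩
      · simp only [T0, dif_pos h]
        exact ⟨_, rfl⟩
      · simp

instance NF.instNonempty (D : Subgroup G) : Nonempty (NF D) := ⟨⟨⊤, inferInstance, inferInstance, le_top⟩⟩

/-- intersection -/
def NF.inf {D : Subgroup G} (A B : NF D) : NF D :=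
  ⟨A.N ⊓ B.N, inferInstance, inferInstance, le_inf A.le B.le⟩

/-- The compactness lemma. -/
theorem lemmaC (hL : ∀ S : Set G, S.Finite → (normalClosure S : Set G).Finite)
    (D : Subgroup G) (c : G) :
    ∃ H : Subgroup G, H.Normal ∧ (H : Set G).Countable ∧ c ∈ H ∧ ∃ st : NF D → NF D,
      (∀ A, ∀ h ∈ H, h ∈ (st A).N ↔ h ∈ A.N) ∧
      ∀ x y : G, ∃ t ∈ H, ∀ A, ⁅x, y⁆⁻¹ * ⁅x, t⁆ ∈ (st A).N := by
  classical
  choose! T hTc hT using fun (s : Set G) (hs : s.Finite) => exists_types D s hs
  obtain ⟨H0, hH0c, hcH0, hH0⟩ := exists_countable_closed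
    (fun s => T s ∪ (normalClosure s : Set G))
    (fun s hs => (hTc s hs).union (hL s hs).countable) c
  have hncl : ∀ s : Set G, s.Finite → s ⊆ H0 → ∀ g ∈ normalClosure s, g ∈ H0 :=
    fun s hs hsub g hg => hH0 s hs hsub (Or.inr hg)
  let H : Subgroup G :=
    { carrier := H0
      one_mem' := hncl ∅ Set.finite_empty (Set.empty_subset _) 1 (one_mem _)
      mul_mem' := fun {a b} ha hb => hncl {a, b} (Set.toFinite _)
        (Set.insert_subset ha (Set.singleton_subset_iff.mpr hb)) _
        (mul_mem (subset_normalClosure (by simp)) (subset_normalClosure (by simp)))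
      inv_mem' := fun {a} ha => hncl {a} (Set.toFinite _) (Set.singleton_subset_iff.mpr ha) _
        (inv_mem (subset_normalClosure (by simp))) }
  have hHn : H.Normal := ⟨fun a ha g => hncl {a} (Set.toFinite _)
    (Set.singleton_subset_iff.mpr ha) _
    (normalClosure_normal.conj_mem _ (subset_normalClosure (by simp)) g)⟩
  -- index set
  let ι := {s : Set G // s.Finite ∧ s ⊆ H0} × NF D
  letI : Preorder ι :=
    { le := fun i j => i.1.1 ⊆ j.1.1 ∧ j.2.N ≤ i.2.N
      le_refl := fun i => ⟨subset_rfl, le_rfl⟩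
      le_trans := fun i j k h1 h2 => ⟨h1.1.trans h2.1, h2.2.trans h1.2⟩ }
  haveI : Nonempty ι := ⟨⟨⟨∅, Set.finite_empty, Set.empty_subset _⟩, Classical.arbitrary _⟩⟩
  haveI : IsDirectedOrder ι := ⟨fun i j => ⟨⟨⟨i.1.1 ∪ j.1.1, i.1.2.1.union j.1.2.1,
    Set.union_subset i.1.2.2 j.1.2.2⟩, i.2.inf j.2⟩, ⟨Set.subset_union_left, inf_le_left⟩,
    ⟨Set.subset_union_right, inf_le_right⟩⟩⟩
  let U : Ultrafilter ι := Ultrafilter.of Filter.atTop
  have hU : ∀ i : ι, ∀ᶠ j in (U : Filter ι), i ≤ j := fun i =>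
    Ultrafilter.of_le Filter.atTop (Filter.eventually_ge_atTop i)
  choose π hπD hπs hπT using fun i : ι => hT i.1.1 i.1.2.1 i.2
  let ρ : (A : NF D) → ι → (G →* G ⧸ A.N) := fun A i =>
    if h : i.2.N ≤ A.N then (QuotientGroup.map i.2.N A.N (MonoidHom.id G) h).comp (π i) else 1
  have hlim : ∀ (A : NF D) (g : G), ∃ v, ∀ᶠ i in (U : Filter ι), ρ A i g = v := by
    intro A g
    haveI : Finite (G ⧸ A.N) := finite_quotient_of_finiteIndex
    exact Ultrafilter.eventually_exists_iff.mp (Filter.Eventually.of_forall fun i => ⟨_, rfl⟩)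
  choose L0 hL0 using hlim
  have huniq : ∀ (A : NF D) (g : G) (v), (∀ᶠ i in (U : Filter ι), ρ A i g = v) → L0 A g = v := by
    intro A g v hv
    obtain ⟨i, h1, h2⟩ := ((hL0 A g).and hv).exists
    rw [← h1, h2]
  let L : (A : NF D) → (G →* G ⧸ A.N) := fun A => MonoidHom.mk' (L0 A) (by
    intro a b
    apply huniq
    filter_upwards [hL0 A a, hL0 A b] with i h1 h2
    rw [map_mul, h1, h2])
  have hLe : ∀ A g, L A g = L0 A g := fun A g => rfl
  have hLD : ∀ A, ∀ d ∈ D, L A d = 1 := by
    intro A d hd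
    rw [hLe]
    apply huniq
    refine Filter.Eventually.of_forall fun i => ?_
    by_cases h : i.2.N ≤ A.N
    · simp only [ρ, dif_pos h, MonoidHom.comp_apply, hπD i d hd, map_one]
    · simp only [ρ, dif_neg h, MonoidHom.one_apply]
  have hLH : ∀ A, ∀ h ∈ H, L A h = (h : G ⧸ A.N) := by
    intro A g hg
    rw [hLe]
    apply huniq
    filter_upwards [hU ⟨⟨{g}, Set.toFinite _, Set.singleton_subset_iff.mpr hg⟩, A⟩] with i hi
    have h : i.2.N ≤ A.N := hi.2
    simp only [ρ, dif_pos h, MonoidHom.comp_apply]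
    rw [hπs i g (hi.1 rfl)]
    rfl
  let st : NF D → NF D := fun A =>
    ⟨(L A).ker, inferInstance, by
      haveI : Finite (G ⧸ A.N) := finite_quotient_of_finiteIndex
      infer_instance, fun d hd => hLD A d hd⟩
  refine ⟨H, hHn, hH0c, hcH0, st, ?_, ?_⟩
  · intro A h hh
    show L A h = 1 ↔ _
    rw [hLH A h hh, QuotientGroup.eq_one_iff]
  · intro x y
    let E : Set G := {e | ∃ t ∈ H, e = ⁅x, t⁆}
    have hEf : E.Finite := by
      refine (hL {x} (Set.toFinite _)).subset ?_
      rintro e ⟨t, -, rfl⟩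
      have hx : x ∈ normalClosure ({x} : Set G) := subset_normalClosure rfl
      have : ⁅x, t⁆ = x * (t * x⁻¹ * t⁻¹) := by rw [commutatorElement_def]; group
      rw [this]
      exact mul_mem hx (normalClosure_normal.conj_mem _ (inv_mem hx) t)
    have hEH : E ⊆ H0 := by
      rintro e ⟨t, ht, rfl⟩
      have : ⁅x, t⁆ = (x * t * x⁻¹) * t⁻¹ := by rw [commutatorElement_def]
      rw [this]
      exact H.mul_mem (hHn.conj_mem _ ht x) (H.inv_mem ht)
    have h1 : ∀ᶠ i in (U : Filter ι), ∃ e ∈ E, π i ⁅x, y⁆ = (e : G ⧸ i.2.N) := by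
      filter_upwards [hU ⟨⟨E, hEf, hEH⟩, Classical.arbitrary _⟩] with i hi
      obtain ⟨t, ht, hyt⟩ := hπT i y
      have htH : t ∈ H := hH0 i.1.1 i.1.2.1 i.1.2.2 (Or.inl ht)
      refine ⟨⁅x, t⁆, ⟨t, htH, rfl⟩, ?_⟩
      rw [← hπs i _ (hi.1 ⟨t, htH, rfl⟩), map_commutatorElement, map_commutatorElement, hyt]
    obtain ⟨e, ⟨t, htH, rfl⟩, he⟩ := (Ultrafilter.eventually_exists_mem_iff hEf).mp h1
    refine ⟨t, htH, fun A => ?_⟩
    show L A _ = 1
    have h2 : L A ⁅x, y⁆ = (⁅x, t⁆ : G) := by
      rw [hLe]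
      apply huniq
      filter_upwards [he, hU ⟨⟨∅, Set.finite_empty, Set.empty_subset _⟩, A⟩] with i hi1 hi
      have h : i.2.N ≤ A.N := hi.2
      simp only [ρ, dif_pos h, MonoidHom.comp_apply]
      rw [hi1]
      rfl
    rw [map_mul, map_inv, h2, hLH A _ (hEH ⟨t, htH, rfl⟩), inv_mul_cancel]

end Pool.Agent.H.MP_102156_al
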