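import Mathlib
import Pool.Agent.H.MP_102156_al.A

set_option autoImplicit false
set_option linter.style.haveILetI false

namespace Pool.Agent.H.MP_102156_al

open Subgroup
open scoped commutatorElement

variable {G : Type} [Group G]

/-- a stage of the construction -/
structure St (G : Type) [Group G] where
  D : Subgroup G
  K : Subgroup G
  S : Set (Subgroup G)
  Dn : D.Normal
  Kn : K.Normal
  Dle : D ≤ commutator G
  Kle : K ≤ commutator G
  Sn : ∀ N ∈ S, N.Normal ∧ N.FiniteIndex ∧ K ≤ N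
  sep : ∀ d ∈ D, (∀ N ∈ S, d ∈ N) → d = 1
  pf : ∀ d ∈ D, {N | N ∈ S ∧ d ∉ N}.Finite
  R : ∀ x y : G, ∃ d ∈ D, d ∈ normalClosure ({x} : Set G) ∧ d⁻¹ * ⁅x, y⁆ ∈ K
  T : ∀ N0 : Subgroup G, N0.Normal → N0.FiniteIndex →
    ∃ N1 : Subgroup G, N1.Normal ∧ N1.FiniteIndex ∧ K ≤ N1 ∧ ∀ d ∈ D, d ∈ N1 → d ∈ N0

instance St.instPreorder : Preorder (St G) where
  le a b := a.D ≤ b.D ∧ b.K ≤ a.K ∧ a.S ⊆ b.S ∧ ∀ N ∈ b.S, N ∉ a.S → a.D ≤ N
  le_refl a := ⟨le_rfl, le_rfl, subset_rfl, fun _ h h' => absurd h h'⟩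
  le_trans a b c h1 h2 := ⟨h1.1.trans h2.1, h2.2.1.trans h1.2.1, h1.2.2.1.trans h2.2.2.1,
    fun N hN hN' => by
      by_cases h : N ∈ b.S
      · exact h1.2.2.2 N h hN'
      · exact h1.1.trans (h2.2.2.2 N hN h)⟩

theorem St.DK (a : St G) (g : G) (h1 : g ∈ a.D) (h2 : g ∈ a.K) : g = 1 :=
  a.sep g h1 (fun N hN => (a.Sn N hN).2.2 h2)

/-- the starting stage -/
def St.base (G : Type) [Group G] : St G where
  D := ⊥
  K := commutator G
  S := ∅
  Dn := inferInstance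
  Kn := inferInstance
  Dle := bot_le
  Kle := le_rfl
  Sn := fun _ h => h.elim
  sep := fun _ h _ => mem_bot.mp h
  pf := fun _ _ => by simp
  R := fun x y => ⟨1, one_mem _, one_mem _, by
    rw [inv_one, one_mul]
    exact commutator_mem_commutator (mem_top x) (mem_top y)⟩
  T := fun _ _ _ => ⟨⊤, inferInstance, inferInstance, le_top, fun d hd _ => by
    rw [mem_bot.mp hd]; exact one_mem _⟩

theorem comm_mem_ncl (x y : G) : ⁅x, y⁆ ∈ normalClosure ({x} : Set G) := by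
  have hx : x ∈ normalClosure ({x} : Set G) := subset_normalClosure rfl
  have : ⁅x, y⁆ = x * (y * x⁻¹ * y⁻¹) := by rw [commutatorElement_def]; group
  rw [this]
  exact mul_mem hx (normalClosure_normal.conj_mem _ (inv_mem hx) y)

theorem chain_fin {α β : Type} [Preorder α] {c : Set α} (hc : IsChain (· ≤ ·) c)
    (hne : c.Nonempty) (P : α → β → Prop) (hP : ∀ a b e, a ≤ b → P a e → P b e)
    (E : Set β) (hE : E.Finite) (h : ∀ e ∈ E, ∃ a ∈ c, P a e) : ∃ a ∈ c, ∀ e ∈ E, P a e := by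
  induction E, hE using Set.Finite.induction_on with
  | empty => obtain ⟨a, ha⟩ := hne; exact ⟨a, ha, fun _ h => h.elim⟩
  | @insert e E _ _ ih =>
    obtain ⟨a, ha, hPa⟩ := ih (fun e' he' => h e' (Set.mem_insert_of_mem _ he'))
    obtain ⟨b, hb, hPb⟩ := h e (Set.mem_insert _ _)
    rcases hc.total ha hb with hab | hab
    · refine ⟨b, hb, fun e' he' => ?_⟩
      rcases he' with rfl | he'
      · exact hPb
      · exact hP _ _ _ hab (hPa _ he')
    · refine ⟨a, ha, fun e' he' => ?_⟩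
      rcases he' with rfl | he'
      · exact hP _ _ _ hab hPb
      · exact hPa _ he'

theorem chain_bdd (hL : ∀ S : Set G, S.Finite → (normalClosure S : Set G).Finite)
    (c : Set (St G)) (hc : IsChain (· ≤ ·) c) (hne : c.Nonempty) : BddAbove c := by
  classical
  let D : Subgroup G :=
    { carrier := {g | ∃ a ∈ c, g ∈ a.D}
      one_mem' := by obtain ⟨a, ha⟩ := hne; exact ⟨a, ha, one_mem _⟩
      mul_mem' := by
        rintro x y ⟨a, ha, hx⟩ ⟨b, hb, hy⟩
        rcases hc.total ha hb with hab | hab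
        · exact ⟨b, hb, mul_mem (hab.1 hx) hy⟩
        · exact ⟨a, ha, mul_mem hx (hab.1 hy)⟩
      inv_mem' := by
        rintro x ⟨a, ha, hx⟩
        exact ⟨a, ha, inv_mem hx⟩ }
  have hD : ∀ g, g ∈ D ↔ ∃ a ∈ c, g ∈ a.D := fun g => Iff.rfl
  have hDn : D.Normal := ⟨by
    rintro x ⟨a, ha, hx⟩ g
    exact ⟨a, ha, a.Dn.conj_mem _ hx g⟩⟩
  let K : Subgroup G := ⨅ a ∈ c, a.K
  have hK : ∀ g, g ∈ K ↔ ∀ a ∈ c, g ∈ a.K := fun g => by simp [K, mem_iInf]
  have hKn : K.Normal := ⟨fun x hx g => (hK _).mpr fun a ha =>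
    a.Kn.conj_mem _ ((hK _).mp hx a ha) g⟩
  let S : Set (Subgroup G) := {N | ∃ a ∈ c, N ∈ a.S}
  have hsep : ∀ d ∈ D, (∀ N ∈ S, d ∈ N) → d = 1 := by
    rintro d ⟨a, ha, hd⟩ h
    exact a.sep d hd (fun N hN => h N ⟨a, ha, hN⟩)
  have hDK : ∀ g ∈ D, g ∈ K → g = 1 := by
    rintro g ⟨a, ha, hd⟩ h
    exact a.DK g hd ((hK g).mp h a ha)
  have hR : ∀ x y : G, ∃ d ∈ D, d ∈ normalClosure ({x} : Set G) ∧ d⁻¹ * ⁅x, y⁆ ∈ K := by
    intro x y
    by_contra hcon
    push Not at hcon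
    obtain ⟨a, ha, hPa⟩ := chain_fin hc hne (fun a e => e ∈ D → e⁻¹ * ⁅x, y⁆ ∉ a.K)
      (fun a b e hab h1 h2 h3 => h1 h2 (hab.2.1 h3)) _ (hL {x} (Set.toFinite _)) (by
        intro e he
        by_cases heD : e ∈ D
        · have := hcon e heD he
          rw [hK] at this
          push Not at this
          obtain ⟨a, ha, h⟩ := this
          exact ⟨a, ha, fun _ => h⟩
        · obtain ⟨a, ha⟩ := hne
          exact ⟨a, ha, fun h => absurd h heD⟩)
    obtain ⟨d, hd1, hd2, hd3⟩ := a.R x y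
    exact hPa d hd2 ⟨a, ha, hd1⟩ hd3
  have hDle : D ≤ commutator G := by
    rintro g ⟨a, -, hg⟩
    exact a.Dle hg
  refine ⟨⟨D, K, S, hDn, hKn, hDle, ?_, ?_, hsep, ?_, hR, ?_⟩, ?_⟩
  · obtain ⟨a, ha⟩ := hne
    exact fun g hg => a.Kle ((hK g).mp hg a ha)
  · rintro N ⟨a, ha, hN⟩
    exact ⟨(a.Sn N hN).1, (a.Sn N hN).2.1, fun g hg => (a.Sn N hN).2.2 ((hK g).mp hg a ha)⟩
  · rintro d ⟨a, ha, hd⟩
    refine (a.pf d hd).subset ?_
    rintro N ⟨⟨b, hb, hN⟩, hdN⟩
    refine ⟨?_, hdN⟩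
    rcases hc.total ha hb with hab | hab
    · by_contra h
      exact hdN (hab.2.2.2 N hN h hd)
    · exact hab.2.2.1 hN
  · intro N0 hN0 hN0f
    haveI : Finite (G ⧸ N0) := finite_quotient_of_finiteIndex
    let F : Subgroup G := normalClosure (Set.range fun q : G ⧸ N0 => q.out)
    have hFf : (F : Set G).Finite := hL _ (Set.finite_range _)
    obtain ⟨a, ha, hPa⟩ := chain_fin hc hne (fun a e => e ∈ D → e ∈ a.D)
      (fun a b e hab h1 h2 => hab.1 (h1 h2)) _ hFf (by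
        intro e _
        by_cases heD : e ∈ D
        · obtain ⟨a, ha, h⟩ := heD
          exact ⟨a, ha, fun _ => h⟩
        · obtain ⟨a, ha⟩ := hne
          exact ⟨a, ha, fun h => absurd h heD⟩)
    haveI := a.Dn
    haveI := a.Kn
    let P : Subgroup G := D ⊓ a.K ⊓ N0
    let A : Subgroup G := (a.D ⊔ P) ⊔ K
    have hAn : A.Normal := inferInstance
    have hGA : commutator G ≤ A := by
      rw [_root_.commutator_def, commutator_le]
      intro x _ y _
      let f : G := (x : G ⧸ N0).out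
      have hf : f ∈ F := subset_normalClosure ⟨_, rfl⟩
      have hn : f⁻¹ * x ∈ N0 := QuotientGroup.eq.mp (QuotientGroup.out_eq' _)
      have e1 : ⁅x, y⁆ = f * ⁅f⁻¹ * x, y⁆ * f⁻¹ * ⁅f, y⁆ := by
        simp only [commutatorElement_def]; group
      rw [e1]
      refine mul_mem (hAn.conj_mem _ ?_ f) ?_
      · obtain ⟨d', hd1, hd2, hd3⟩ := hR (f⁻¹ * x) y
        obtain ⟨d'', he1, he2, he3⟩ := a.R (f⁻¹ * x) y
        have hle : normalClosure ({f⁻¹ * x} : Set G) ≤ N0 :=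
          normalClosure_le_normal (Set.singleton_subset_iff.mpr hn)
        have hp : d''⁻¹ * d' ∈ P := by
          refine mem_inf.mpr ⟨mem_inf.mpr ⟨D.mul_mem (D.inv_mem ⟨a, ha, he1⟩) hd1, ?_⟩,
            N0.mul_mem (N0.inv_mem (hle he2)) (hle hd2)⟩
          have : d''⁻¹ * d' = (d''⁻¹ * ⁅f⁻¹ * x, y⁆) * (d'⁻¹ * ⁅f⁻¹ * x, y⁆)⁻¹ := by group
          rw [this]
          exact mul_mem he3 (inv_mem ((hK _).mp hd3 a ha))
        have : ⁅f⁻¹ * x, y⁆ = (d'' * (d''⁻¹ * d')) * (d'⁻¹ * ⁅f⁻¹ * x, y⁆) := by group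
        rw [this]
        exact mul_mem (mem_sup_left (mul_mem (mem_sup_left he1) (mem_sup_right hp)))
          (mem_sup_right hd3)
      · obtain ⟨d, hd1, hd2, hd3⟩ := hR f y
        have hle : normalClosure ({f} : Set G) ≤ F :=
          normalClosure_le_normal (Set.singleton_subset_iff.mpr hf)
        have : ⁅f, y⁆ = d * (d⁻¹ * ⁅f, y⁆) := by group
        rw [this]
        exact mul_mem (mem_sup_left (mem_sup_left (hPa d (hle hd2) hd1))) (mem_sup_right hd3)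
    have hclaim : ∀ p ∈ D, p ∈ a.K → p ∈ N0 := by
      intro p hp1 hp2
      obtain ⟨u, hu, k, hk, huk⟩ := mem_sup_of_normal_right.mp (hGA (hDle hp1))
      obtain ⟨d, hd, p', hp', hdp⟩ := mem_sup_of_normal_left.mp hu
      have hdD : d ∈ D := ⟨a, ha, hd⟩
      have hk1 : k = 1 := by
        refine hDK k ?_ hk
        have : k = (d * p')⁻¹ * p := by rw [hdp, ← huk]; group
        rw [this]
        exact mul_mem (inv_mem (mul_mem hdD hp'.1.1)) hp1
      have hd1 : d = 1 := by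
        refine a.DK d hd ?_
        have : d = p * p'⁻¹ := by rw [← huk, ← hdp, hk1]; group
        rw [this]
        exact mul_mem hp2 (inv_mem hp'.1.2)
      have : p = p' := by rw [← huk, ← hdp, hk1, hd1]; group
      rw [this]
      exact hp'.2
    obtain ⟨N1, h1, h2, h3, h4⟩ := a.T N0 hN0 hN0f
    refine ⟨N1, h1, h2, fun g hg => h3 ((hK g).mp hg a ha), fun d hd hdN => ?_⟩
    have hGa : commutator G ≤ a.D ⊔ a.K := by
      rw [_root_.commutator_def, commutator_le]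
      intro x _ y _
      obtain ⟨d, hd1, -, hd3⟩ := a.R x y
      have : ⁅x, y⁆ = d * (d⁻¹ * ⁅x, y⁆) := by group
      rw [this]
      exact mul_mem (mem_sup_left hd1) (mem_sup_right hd3)
    obtain ⟨u, hu, k, hk, huk⟩ := mem_sup_of_normal_right.mp (hGa (hDle hd))
    have hkD : k ∈ D := by
      have : k = u⁻¹ * d := by rw [← huk]; group
      rw [this]
      exact mul_mem (inv_mem ⟨a, ha, hu⟩) hd
    have huN : u ∈ N1 := by
      have : u = d * k⁻¹ := by rw [← huk]; group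
      rw [this]
      exact mul_mem hdN (inv_mem (h3 hk))
    rw [← huk]
    exact mul_mem (h4 u hu huN) (hclaim k hkD hk)
  · intro a ha
    refine ⟨fun g hg => ⟨a, ha, hg⟩, fun g hg => (hK g).mp hg a ha, fun N hN => ⟨a, ha, hN⟩, ?_⟩
    rintro N ⟨b, hb, hN⟩ hN'
    rcases hc.total ha hb with hab | hab
    · exact hab.2.2.2 N hN hN'
    · exact absurd (hab.2.2.1 hN) hN'

theorem St.above (a : St G) (N0 : Subgroup G) (hN0 : N0.Normal) (hN0f : N0.FiniteIndex) :
    ∃ N : NF a.D, ∀ k ∈ a.K, k ∈ N.N → k ∈ N0 := by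
  obtain ⟨N1, h1, h2, h3, h4⟩ := a.T N0 hN0 hN0f
  haveI := a.Dn
  refine ⟨⟨a.D ⊔ (N0 ⊓ N1), inferInstance, finiteIndex_of_le le_sup_right, le_sup_left⟩, ?_⟩
  intro k hk hkN
  obtain ⟨d, hd, n, hn, hdn⟩ := mem_sup_of_normal_left.mp hkN
  have hdN : d ∈ N1 := by
    have : d = k * n⁻¹ := by rw [← hdn]; group
    rw [this]
    exact mul_mem (h3 hk) (inv_mem hn.2)
  rw [← hdn]
  exact mul_mem (h4 d hd hdN) hn.1

theorem St.succ (hL : ∀ S : Set G, S.Finite → (normalClosure S : Set G).Finite)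
    (hRF : ∀ g : G, g ≠ 1 → ∃ N : Subgroup G, N.Normal ∧ N.FiniteIndex ∧ g ∉ N)
    (a : St G) (c : G) (hc : c ∈ a.K) : ∃ b : St G, a ≤ b ∧ c ∈ b.D := by
  classical
  obtain ⟨H, hHn, hHc, hcH, st, hst, hR⟩ := lemmaC hL a.D c
  haveI := a.Dn
  haveI := a.Kn
  let K2 : Subgroup G := a.K ⊓ (a.D ⊔ H)
  have hK2n : K2.Normal := inferInstance
  have hst' : ∀ A : NF a.D, ∀ k ∈ K2, k ∈ (st A).N → k ∈ A.N := by
    intro A k hk hkA
    obtain ⟨d, hd, h, hh, hdh⟩ := mem_sup_of_normal_left.mp (mem_inf.mp hk).2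
    have h1 : h ∈ (st A).N := by
      have : h = d⁻¹ * k := by rw [← hdh]; group
      rw [this]
      exact mul_mem (inv_mem ((st A).le hd)) hkA
    rw [← hdh]
    exact mul_mem (A.le hd) ((hst A h hh).mp h1)
  have hK2c : (K2 : Set G).Countable := by
    have : ∀ k : K2, ∃ h : H, (k : G) * (h : G)⁻¹ ∈ a.D := by
      intro k
      obtain ⟨d, hd, h, hh, hdh⟩ := mem_sup_of_normal_left.mp (mem_inf.mp k.2).2
      refine ⟨⟨h, hh⟩, ?_⟩
      have : (k : G) * h⁻¹ = d := by rw [← hdh]; group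
      rw [this]
      exact hd
    choose φ hφ using this
    haveI : Countable H := hHc.to_subtype
    have hinj : Function.Injective φ := by
      intro k k' hkk
      have h1 : (k : G) * (k' : G)⁻¹ ∈ a.D := by
        have : (k : G) * (k' : G)⁻¹ = (k * (φ k : G)⁻¹) * (k' * (φ k' : G)⁻¹)⁻¹ := by
          rw [hkk]; group
        rw [this]
        exact mul_mem (hφ k) (inv_mem (hφ k'))
      have h2 := a.DK _ h1 (mul_mem (mem_inf.mp k.2).1 (inv_mem (mem_inf.mp k'.2).1))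
      exact Subtype.ext (mul_inv_eq_one.mp h2)
    exact Set.countable_coe_iff.mp hinj.countable
  obtain ⟨f, hf⟩ := hK2c.exists_eq_range ⟨1, K2.one_mem⟩
  let E : ℕ → Subgroup G := fun n => normalClosure (f '' {i | i < n})
  have hEf : ∀ n, (E n : Set G).Finite := fun n => hL _ ((Set.finite_lt_nat n).image f)
  have hEK : ∀ n, E n ≤ K2 := fun n => normalClosure_le_normal (by
    rintro _ ⟨i, -, rfl⟩
    rw [hf]
    exact ⟨i, rfl⟩)
  have hEmono : Monotone E := fun n m h => normalClosure_mono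
    (Set.image_mono fun i hi => lt_of_lt_of_le hi h)
  have hE0 : ∀ g ∈ E 0, g = 1 := by
    intro g hg
    have : E 0 ≤ ⊥ := normalClosure_le_normal (by simp)
    exact mem_bot.mp (this hg)
  have hKE : ∀ k ∈ K2, ∃ n, k ∈ E (n + 1) := by
    intro k hk
    have : k ∈ Set.range f := by rw [← hf]; exact hk
    obtain ⟨i, rfl⟩ := this
    exact ⟨i, subset_normalClosure ⟨i, Nat.lt_succ_self i, rfl⟩⟩
  have hsepF : ∀ s : Set G, s.Finite → s ⊆ a.K → ∃ A : NF a.D, ∀ e ∈ s, e ∈ A.N → e = 1 := by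
    intro s hs
    induction s, hs using Set.Finite.induction_on with
    | empty => exact fun _ => ⟨Classical.arbitrary _, fun _ h => h.elim⟩
    | @insert e s _ _ ih =>
      intro hsub
      obtain ⟨A, hA⟩ := ih ((Set.subset_insert e s).trans hsub)
      by_cases he : e = 1
      · refine ⟨A, fun e' he' h => ?_⟩
        rcases he' with rfl | he'
        · exact he
        · exact hA _ he' h
      · obtain ⟨N0, h1, h2, h3⟩ := hRF e he
        obtain ⟨B, hB⟩ := a.above N0 h1 h2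
        refine ⟨A.inf B, fun e' he' h => ?_⟩
        rcases he' with rfl | he'
        · exact absurd (hB _ (hsub (Set.mem_insert _ _)) (mem_inf.mp h).2) h3
        · exact hA _ he' (mem_inf.mp h).1
  choose Nn hNn using fun n => hsepF (E (n + 1)) (hEf _)
    (fun g hg => (mem_inf.mp (hEK _ hg)).1)
  let M : ℕ → Subgroup G := fun n => (st (Nn n)).N ⊔ E n
  let K3 : Subgroup G := a.K ⊓ ⨅ A : NF a.D, (st A).N
  have hK3 : ∀ g, g ∈ K3 ↔ g ∈ a.K ∧ ∀ A : NF a.D, g ∈ (st A).N := fun g => by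
    simp [K3, mem_iInf]
  have hK3n : K3.Normal := ⟨fun x hx g => (hK3 _).mpr
    ⟨a.Kn.conj_mem _ ((hK3 _).mp hx).1 g, fun A =>
      (st A).normal.conj_mem _ (((hK3 _).mp hx).2 A) g⟩⟩
  refine ⟨⟨a.D ⊔ K2, K3, a.S ∪ Set.range M, inferInstance, hK3n,
    sup_le a.Dle (inf_le_left.trans a.Kle), inf_le_left.trans a.Kle, ?_, ?_, ?_, ?_, ?_⟩,
    ⟨le_sup_left, inf_le_left, Set.subset_union_left, ?_⟩, ?_⟩
  · rintro N (hN | ⟨n, rfl⟩)
    · exact ⟨(a.Sn N hN).1, (a.Sn N hN).2.1, inf_le_left.trans (a.Sn N hN).2.2⟩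
    · refine ⟨?_, finiteIndex_of_le le_sup_left, fun g hg => mem_sup_left (((hK3 g).mp hg).2 _)⟩
      haveI : (E n).Normal := normalClosure_normal
      exact sup_normal _ _
  · intro g hg hall
    obtain ⟨d, hd, k, hk, hdk⟩ := mem_sup_of_normal_left.mp hg
    have hd1 : d = 1 := by
      refine a.sep d hd (fun N hN => ?_)
      have : d = g * k⁻¹ := by rw [← hdk]; group
      rw [this]
      exact mul_mem (hall N (Or.inl hN)) (inv_mem ((a.Sn N hN).2.2 (mem_inf.mp hk).1))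
    have hgk : g = k := by rw [← hdk, hd1, one_mul]
    rw [hgk] at hall ⊢
    have key : ∀ n, k ∈ E n → k = 1 := by
      intro n
      induction n with
      | zero => exact hE0 k
      | succ n ih =>
        intro hkn
        apply ih
        obtain ⟨u, hu, e, he, hue⟩ := mem_sup_of_normal_left.mp (hall (M n) (Or.inr ⟨n, rfl⟩))
        have huE : u ∈ E (n + 1) := by
          have : u = k * e⁻¹ := by rw [← hue]; group
          rw [this]
          exact mul_mem hkn (inv_mem (hEmono (Nat.le_succ n) he))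
        have hu1 : u = 1 := hNn n u huE (hst' _ u (hEK _ huE) hu)
        rw [← hue, hu1, one_mul]
        exact he
    obtain ⟨n, hn⟩ := hKE k hk
    exact key _ hn
  · intro g hg
    obtain ⟨d, hd, k, hk, hdk⟩ := mem_sup_of_normal_left.mp hg
    obtain ⟨n, hn⟩ := hKE k hk
    refine ((a.pf d hd).union ((Set.finite_lt_nat (n + 1)).image M)).subset ?_
    rintro N ⟨hN | ⟨m, rfl⟩, hgN⟩
    · refine Or.inl ⟨hN, fun h => hgN ?_⟩
      rw [← hdk]
      exact mul_mem h ((a.Sn N hN).2.2 (mem_inf.mp hk).1)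
    · refine Or.inr ⟨m, ?_, rfl⟩
      by_contra h
      apply hgN
      rw [← hdk]
      exact mul_mem (mem_sup_left ((st (Nn m)).le hd))
        (mem_sup_right (hEmono (not_lt.mp h) hn))
  · intro x y
    obtain ⟨d, hd1, hd2, hd3⟩ := a.R x y
    obtain ⟨t, ht, hall⟩ := hR x y
    obtain ⟨d', he1, he2, he3⟩ := a.R x t
    have hxt : ⁅x, t⁆ ∈ H := by
      have : ⁅x, t⁆ = (x * t * x⁻¹) * t⁻¹ := by rw [commutatorElement_def]
      rw [this]
      exact H.mul_mem (hHn.conj_mem _ ht x) (H.inv_mem ht)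
    have hk' : d'⁻¹ * ⁅x, t⁆ ∈ K2 :=
      mem_inf.mpr ⟨he3, mul_mem (mem_sup_left (inv_mem he1)) (mem_sup_right hxt)⟩
    refine ⟨d * (d'⁻¹ * ⁅x, t⁆), mul_mem (mem_sup_left hd1) (mem_sup_right hk'),
      mul_mem hd2 (mul_mem (inv_mem he2) (comm_mem_ncl x t)), (hK3 _).mpr ⟨?_, fun A => ?_⟩⟩
    · have : (d * (d'⁻¹ * ⁅x, t⁆))⁻¹ * ⁅x, y⁆ = (d'⁻¹ * ⁅x, t⁆)⁻¹ * (d⁻¹ * ⁅x, y⁆) := by group
      rw [this]
      exact mul_mem (inv_mem he3) hd3
    · have : (d * (d'⁻¹ * ⁅x, t⁆))⁻¹ * ⁅x, y⁆ =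
          (⁅x, t⁆⁻¹ * (d' * d⁻¹) * ⁅x, t⁆⁻¹⁻¹) * (⁅x, y⁆⁻¹ * ⁅x, t⁆)⁻¹ := by group
      rw [this]
      exact mul_mem ((st A).normal.conj_mem _ ((st A).le (mul_mem he1 (inv_mem hd1))) _)
        (inv_mem (hall A))
  · intro N0 hN0 hN0f
    obtain ⟨N1, h1, h2, h3, h4⟩ := a.T N0 hN0 hN0f
    obtain ⟨B, hB⟩ := a.above N0 hN0 hN0f
    refine ⟨N1 ⊓ (st B).N, inferInstance, inferInstance,
      fun g hg => mem_inf.mpr ⟨h3 ((hK3 g).mp hg).1, ((hK3 g).mp hg).2 B⟩, fun g hg hgN => ?_⟩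
    obtain ⟨d, hd, k, hk, hdk⟩ := mem_sup_of_normal_left.mp hg
    have hd1 : d ∈ N1 := by
      have : d = g * k⁻¹ := by rw [← hdk]; group
      rw [this]
      exact mul_mem (mem_inf.mp hgN).1 (inv_mem (h3 (mem_inf.mp hk).1))
    have hk1 : k ∈ (st B).N := by
      have : k = d⁻¹ * g := by rw [← hdk]; group
      rw [this]
      exact mul_mem (inv_mem ((st B).le hd)) (mem_inf.mp hgN).2
    rw [← hdk]
    exact mul_mem (h4 d hd hd1) (hB k (mem_inf.mp hk).1 (hst' B k hk hk1))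
  · rintro N (hN | ⟨n, rfl⟩) hN'
    · exact absurd hN hN'
    · exact fun g hg => mem_sup_left ((st (Nn n)).le hg)
  · exact mem_sup_right (mem_inf.mpr ⟨hc, mem_sup_right hcH⟩)

/-- a separating family of normal subgroups of finite index, point finite on the derived group -/
theorem thmA (hL : ∀ S : Set G, S.Finite → (normalClosure S : Set G).Finite)
    (hRF : ∀ g : G, g ≠ 1 → ∃ N : Subgroup G, N.Normal ∧ N.FiniteIndex ∧ g ∉ N) :
    ∃ S : Set (Subgroup G), (∀ N ∈ S, N.Normal ∧ N.FiniteIndex) ∧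
      (∀ d ∈ commutator G, (∀ N ∈ S, d ∈ N) → d = 1) ∧
      ∀ d ∈ commutator G, {N | N ∈ S ∧ d ∉ N}.Finite := by
  haveI : Nonempty (St G) := ⟨St.base G⟩
  obtain ⟨m, hm⟩ := zorn_le_nonempty (α := St G) (chain_bdd hL)
  have hK : ∀ c ∈ m.K, c = 1 := by
    intro c hc
    obtain ⟨b, hb, hcb⟩ := m.succ hL hRF c hc
    exact m.DK c ((hm hb).1 hcb) hc
  have hG : commutator G ≤ m.D := by
    rw [_root_.commutator_def, commutator_le]
    intro x _ y _
    obtain ⟨d, hd1, -, hd3⟩ := m.R x y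
    have := hK _ hd3
    rw [inv_mul_eq_one] at this
    rw [← this]
    exact hd1
  exact ⟨m.S, fun N hN => ⟨(m.Sn N hN).1, (m.Sn N hN).2.1⟩, fun d hd => m.sep d (hG hd),
    fun d hd => m.pf d (hG hd)⟩

end Pool.Agent.H.MP_102156_al
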